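import Pool.Agent.W488.IX.Stm

/-! Project IX (helper488), part ALG2: the quadratic inequality with errors, region `y < x`. -/

set_option autoImplicit false

namespace Pool.Agent.W334.IX.Alg2

open Pool.Agent.W488.IW Pool.Agent.W488.IX

theorem mon (x a y z : ℝ) (h : |x| ≤ a) : -(a * (y ^ 2 + z ^ 2) / 2) ≤ x * (y * z) := by
  have h1 := abs_le.1 h
  have ha : 0 ≤ a := le_trans (abs_nonneg x) h
  nlinarith [sq_nonneg (y + z), sq_nonneg (y - z), mul_nonneg ha (sq_nonneg (y + z)),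
    mul_nonneg ha (sq_nonneg (y - z)), mul_nonneg (by linarith : 0 ≤ a - x) (sq_nonneg (y - z)),
    mul_nonneg (by linarith : 0 ≤ a + x) (sq_nonneg (y + z))]

/-- the positive part -/
theorem thde (K ϑ δ m c1 c2 c3 P Q R : ℝ) (hϑ : 0 < ϑ) (hδ : 0 < δ) (hδ1 : δ ≤ 1)
    (hδK : δ * (4 * K ^ 2) ≤ ϑ ^ 2) (hm : 0 ≤ m) (hm1 : m ≤ 1) (h1 : |c1| ≤ K)
    (h3 : |c3| ≤ 2 * K) (hc : 0 ≤ c2 - m * (c1 + c3)) :
    δ * ϑ / 2 * (P ^ 2 + Q ^ 2 + R ^ 2) ≤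
      2 * ϑ * ((P + m * Q) ^ 2 + (R + m * Q) ^ 2 + 2 * (1 - m ^ 2) * Q ^ 2)
        + 16 * δ * ϑ * Q ^ 2 + 4 * δ * Q * (c1 * P + c2 * Q + c3 * R) := by
  set P1 := P + m * Q with hP1
  set R1 := R + m * Q with hR1
  have hm2 : 0 ≤ 1 - m ^ 2 := by nlinarith
  -- c1 part
  have hc1 : c1 ^ 2 ≤ K ^ 2 := by
    rw [← sq_abs c1]; exact pow_le_pow_left₀ (abs_nonneg _) h1 2
  have hc3 : c3 ^ 2 ≤ 4 * K ^ 2 := by
    rw [← sq_abs c3]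
    calc |c3| ^ 2 ≤ (2 * K) ^ 2 := pow_le_pow_left₀ (abs_nonneg _) h3 2
      _ = 4 * K ^ 2 := by ring
  have e1 : -(ϑ * P1 ^ 2 + δ * ϑ * Q ^ 2) ≤ 4 * δ * Q * (c1 * P1) := by
    -- 4 δ c1 Q P1 = 2 (ϑ^(1/2) P1)(2 δ c1 Q / ϑ^(1/2))
    have h : 0 ≤ ϑ * (ϑ * P1 ^ 2 + δ * ϑ * Q ^ 2 + 4 * δ * Q * (c1 * P1)) := by
      have : ϑ * (ϑ * P1 ^ 2 + δ * ϑ * Q ^ 2 + 4 * δ * Q * (c1 * P1))
          = (ϑ * P1 + 2 * δ * c1 * Q) ^ 2 + δ * (ϑ ^ 2 - δ * (4 * K ^ 2)) * Q ^ 2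
            + 4 * δ ^ 2 * (K ^ 2 - c1 ^ 2) * Q ^ 2 := by ring
      rw [this]
      have a1 : 0 ≤ δ * (ϑ ^ 2 - δ * (4 * K ^ 2)) * Q ^ 2 :=
        mul_nonneg (mul_nonneg hδ.le (by linarith)) (sq_nonneg _)
      have a2 : 0 ≤ 4 * δ ^ 2 * (K ^ 2 - c1 ^ 2) * Q ^ 2 :=
        mul_nonneg (mul_nonneg (by positivity) (by linarith)) (sq_nonneg _)
      nlinarith [sq_nonneg (ϑ * P1 + 2 * δ * c1 * Q)]
    have := nonneg_of_mul_nonneg_right h hϑ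
    linarith
  have e3 : -(ϑ * R1 ^ 2 + 4 * (δ * ϑ) * Q ^ 2) ≤ 4 * δ * Q * (c3 * R1) := by
    have h : 0 ≤ ϑ * (ϑ * R1 ^ 2 + 4 * (δ * ϑ) * Q ^ 2 + 4 * δ * Q * (c3 * R1)) := by
      have : ϑ * (ϑ * R1 ^ 2 + 4 * (δ * ϑ) * Q ^ 2 + 4 * δ * Q * (c3 * R1))
          = (ϑ * R1 + 2 * δ * c3 * Q) ^ 2 + 4 * δ * (ϑ ^ 2 - δ * (4 * K ^ 2)) * Q ^ 2
            + 4 * δ ^ 2 * (4 * K ^ 2 - c3 ^ 2) * Q ^ 2 := by ring
      rw [this]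
      have a1 : 0 ≤ 4 * δ * (ϑ ^ 2 - δ * (4 * K ^ 2)) * Q ^ 2 :=
        mul_nonneg (mul_nonneg (by linarith) (by linarith)) (sq_nonneg _)
      have a2 : 0 ≤ 4 * δ ^ 2 * (4 * K ^ 2 - c3 ^ 2) * Q ^ 2 :=
        mul_nonneg (mul_nonneg (by positivity) (by linarith)) (sq_nonneg _)
      nlinarith [sq_nonneg (ϑ * R1 + 2 * δ * c3 * Q)]
    have := nonneg_of_mul_nonneg_right h hϑ
    linarith
  have e2 : 4 * δ * Q * (c1 * P + c2 * Q + c3 * R)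
      = 4 * δ * Q * (c1 * P1) + 4 * δ * Q * (c3 * R1)
        + 4 * δ * (c2 - m * (c1 + c3)) * Q ^ 2 := by rw [hP1, hR1]; ring
  have e4 : 0 ≤ 4 * δ * (c2 - m * (c1 + c3)) * Q ^ 2 := by positivity
  have e5 : 0 ≤ 4 * ϑ * (1 - m ^ 2) * Q ^ 2 := by positivity
  -- P^2 <= 2 P1^2 + 2 Q^2
  have e6 : P ^ 2 ≤ 2 * P1 ^ 2 + 2 * Q ^ 2 := by
    have hmq : (m * Q) ^ 2 ≤ Q ^ 2 := by nlinarith [sq_nonneg Q, mul_nonneg hm2 (sq_nonneg Q)]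
    have : P = P1 - m * Q := by rw [hP1]; ring
    rw [this]; nlinarith [sq_nonneg (P1 + m * Q)]
  have e7 : R ^ 2 ≤ 2 * R1 ^ 2 + 2 * Q ^ 2 := by
    have hmq : (m * Q) ^ 2 ≤ Q ^ 2 := by nlinarith [sq_nonneg Q, mul_nonneg hm2 (sq_nonneg Q)]
    have : R = R1 - m * Q := by rw [hR1]; ring
    rw [this]; nlinarith [sq_nonneg (R1 + m * Q)]
  have hδϑ : 0 < δ * ϑ := mul_pos hδ hϑ
  have e8 : δ * ϑ * (P1 ^ 2 + R1 ^ 2) ≤ ϑ * (P1 ^ 2 + R1 ^ 2) := by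
    have : 0 ≤ (1 - δ) * (ϑ * (P1 ^ 2 + R1 ^ 2)) :=
      mul_nonneg (by linarith) (mul_nonneg hϑ.le (by positivity))
    linarith
  have e9 : δ * ϑ * (P ^ 2 + R ^ 2) ≤ δ * ϑ * (2 * P1 ^ 2 + 2 * R1 ^ 2 + 4 * Q ^ 2) :=
    mul_le_mul_of_nonneg_left (by linarith) hδϑ.le
  have e10 : 0 ≤ δ * ϑ * Q ^ 2 := by positivity
  rw [e2]
  nlinarith

/-- the error terms -/
theorem err (e m s u1 u2 u3 v1 v2 v3 a b c d P Q R : ℝ) (hs : |s| ≤ 1)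
    (hm : 0 ≤ m) (hm1 : m ≤ 1) (h1 : |u1| ≤ e) (h2 : |u2| ≤ 2 * e) (h3 : |u3| ≤ e)
    (k1 : |v1| ≤ 6 * e) (k2 : |v2| ≤ 6 * e) (k3 : |v3| ≤ 6 * e)
    (ha : |a| ≤ e) (hb : |b| ≤ e) (hc : |c| ≤ e) (hd : |d| ≤ 2 * e) :
    -(50 * e * (P ^ 2 + Q ^ 2 + R ^ 2)) ≤
      (u1 * P + u2 * Q + u3 * R) * (m * P + 2 * Q + m * R)
      + (v1 * P + v2 * Q + v3 * R) * (P + R)
      + a * (P ^ 2 - Q ^ 2) + b * (Q ^ 2 - R ^ 2)
      + c * (s * (P * R) + P * Q - s * Q ^ 2 - Q * R)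
      + d * (s * Q ^ 2 + P * Q - s * (P * R) - Q * R) := by
  have he : 0 ≤ e := le_trans (abs_nonneg _) h1
  have ml : ∀ x y : ℝ, |x| ≤ y → |x * m| ≤ y := by
    intro x y h
    rw [abs_mul, abs_of_nonneg hm]
    calc |x| * m ≤ |x| * 1 := mul_le_mul_of_nonneg_left hm1 (abs_nonneg _)
      _ ≤ y := by linarith
  have sl : ∀ x y : ℝ, |x| ≤ y → |x * s| ≤ y := by
    intro x y h
    rw [abs_mul]
    calc |x| * |s| ≤ |x| * 1 := mul_le_mul_of_nonneg_left hs (abs_nonneg _)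
      _ ≤ y := by linarith
  have ng : ∀ x y : ℝ, |x| ≤ y → |(-x)| ≤ y := by
    intro x y h; rwa [abs_neg]
  have tw : ∀ x y : ℝ, |x| ≤ y → |2 * x| ≤ 2 * y := by
    intro x y h; rw [abs_mul, abs_two]; linarith
  have q1 := mon _ _ P P (ml _ _ h1)
  have q2 := mon _ _ P Q (tw _ _ h1)
  have q3 := mon _ _ P R (ml _ _ h1)
  have q4 := mon _ _ Q P (ml _ _ h2)
  have q5 := mon _ _ Q Q (tw _ _ h2)
  have q6 := mon _ _ Q R (ml _ _ h2)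
  have q7 := mon _ _ R P (ml _ _ h3)
  have q8 := mon _ _ R Q (tw _ _ h3)
  have q9 := mon _ _ R R (ml _ _ h3)
  have r1 := mon _ _ P P k1
  have r2 := mon _ _ P R k1
  have r3 := mon _ _ Q P k2
  have r4 := mon _ _ Q R k2
  have r5 := mon _ _ R P k3
  have r6 := mon _ _ R R k3
  have s1 := mon _ _ P P ha
  have s2 := mon _ _ Q Q (ng _ _ ha)
  have s3 := mon _ _ Q Q hb
  have s4 := mon _ _ R R (ng _ _ hb)
  have t1 := mon _ _ P R (sl _ _ hc)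
  have t2 := mon _ _ P Q hc
  have t3 := mon _ _ Q Q (ng _ _ (sl _ _ hc))
  have t4 := mon _ _ Q R (ng _ _ hc)
  have w1 := mon _ _ Q Q (sl _ _ hd)
  have w2 := mon _ _ P Q hd
  have w3 := mon _ _ P R (ng _ _ (sl _ _ hd))
  have w4 := mon _ _ Q R (ng _ _ hd)
  have z1 : 0 ≤ e * P ^ 2 := by positivity
  have z2 : 0 ≤ e * Q ^ 2 := by positivity
  have z3 : 0 ≤ e * R ^ 2 := by positivity
  linarith

theorem comb (i p q a b : ℝ) (hi : 0 ≤ i) (hp : a ≤ p) (hq : -b ≤ q) (hab : b ≤ a) :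
    0 ≤ i + p + q := by linarith

theorem main (h : S_IDL) : S_ALG2 := by
  intro K ϑ δ hK hϑ hδ hδ1 hδK
  refine ⟨δ * ϑ / 200, by positivity, ?_⟩
  intro e he0 he A B t K1 K2 O1 O2 H e0 g0 hb P Q R
  obtain ⟨⟨hA0, hA1⟩, ⟨hB0, hB1⟩, ⟨ht0, ht1⟩, ⟨hK10, hK11⟩, ⟨hK20, hK21⟩, ⟨hO10, hO11⟩,
    ⟨hO20, hO21⟩, ⟨hH0, hH1⟩, c1, c2, c3, c4, r1, r2, r3, r4, r5⟩ := hb
  obtain ⟨i1, i2⟩ := h t K1 K2 O1 O2 H ht0 ht1 hK10 hK20 hO20 hH0 c1 c2 c3 c4 P Q R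
  -- the coefficient
  have hAB0 : 0 ≤ A * B := mul_nonneg hA0 hB0
  have hAB1 : A * B ≤ 1 := by nlinarith
  set m : ℝ := t * (A * B) with hm
  have hm0 : 0 ≤ m := mul_nonneg ht0.le hAB0
  have hm1 : m ≤ 1 := by nlinarith
  have hA2 : 0 ≤ 1 - A ^ 2 := by nlinarith
  have hB2 : 0 ≤ 1 - B ^ 2 := by nlinarith
  have hA2' : A ^ 2 ≤ 1 := by linarith
  have hB2' : B ^ 2 ≤ 1 := by linarith
  have hA20 : 0 ≤ A ^ 2 := sq_nonneg _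
  have hB20 : 0 ≤ B ^ 2 := sq_nonneg _
  have hw0 : 0 ≤ t * (1 - A * B) := mul_nonneg ht0.le (by linarith)
  -- small quantities
  set w : ℝ := t * (1 - A * B) with hw
  have hwS : ∀ x : ℝ, |x| ≤ H + K1 + K2 + O1 + O2 → |w * x| ≤ e := by
    intro x hx
    rw [abs_mul, abs_of_nonneg hw0]
    exact le_trans (mul_le_mul_of_nonneg_left hx hw0) r5
  have hwc : ∀ x k : ℝ, 0 ≤ k → |x| ≤ k * (H + K1 + K2 + O1 + O2) → |w * x| ≤ k * e := by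
    intro x k hk hx
    rw [abs_mul, abs_of_nonneg hw0]
    calc w * |x| ≤ w * (k * (H + K1 + K2 + O1 + O2)) := mul_le_mul_of_nonneg_left hx hw0
      _ = k * (w * (H + K1 + K2 + O1 + O2)) := by ring
      _ ≤ k * e := mul_le_mul_of_nonneg_left r5 hk
  have aJ : |K2 - 2 * O2| ≤ 2 * K := by
    rw [abs_le]; constructor <;> linarith
  have d1 : |(-((1 - A ^ 2) * K1))| ≤ e := by
    rw [abs_neg, abs_of_nonneg (mul_nonneg hA2 hK10)]; exact r1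
  have d3 : |(-((1 - B ^ 2) * (K2 - 2 * O2)))| ≤ e := by
    rw [abs_neg, abs_mul, abs_of_nonneg hB2]; exact r3
  have d2 : |(-((1 - A ^ 2) * K1)) + (-((1 - B ^ 2) * (K2 - 2 * O2)))| ≤ 2 * e := by
    refine le_trans (abs_add_le _ _) ?_
    linarith
  have neg' : ∀ x y : ℝ, |x| ≤ y → |(-x)| ≤ y := by
    intro x y h; rwa [abs_neg]
  have f1 : |(-(w * K1))| ≤ 6 * e := neg' _ _ (hwc _ 6 (by norm_num)
    (by rw [abs_of_nonneg hK10]; linarith))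
  have f3 : |(-(w * (K2 - 2 * O2)))| ≤ 6 * e := neg' _ _ (hwc _ 6 (by norm_num)
    (by rw [abs_le]; constructor <;> linarith))
  have f2 : |(-(w * (K1 + (K2 - 2 * O2) + 2 * (H + 2 * O2))))| ≤ 6 * e :=
    neg' _ _ (hwc _ 6 (by norm_num) (by rw [abs_le]; constructor <;> linarith))
  have g1 : |(1 - A ^ 2) * (e0 - K1)| ≤ e := by
    rw [abs_mul, abs_of_nonneg hA2]; exact r2
  have g2 : |(1 - B ^ 2) * (g0 + (2 * O2 + K2 + 2 * H - 4 * (O1 - O2)))| ≤ e := by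
    rw [abs_mul, abs_of_nonneg hB2]; exact r4
  have g3 : |w * K2| ≤ e := hwS _ (by rw [abs_of_nonneg hK20]; linarith)
  have g4 : |w * (2 * O1 - K1)| ≤ 2 * e := hwc _ 2 (by norm_num)
    (by rw [abs_le]; constructor <;> linarith)
  -- bounds for the positive part
  have ac1 : |A ^ 2 * K1| ≤ K := by
    rw [abs_of_nonneg (mul_nonneg hA20 hK10)]
    nlinarith [mul_nonneg hA2 hK10]
  have ac3 : |B ^ 2 * (K2 - 2 * O2)| ≤ 2 * K := by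
    rw [abs_mul, abs_of_nonneg hB20]
    nlinarith [mul_nonneg hB2 (abs_nonneg (K2 - 2 * O2))]
  have n1 : 0 ≤ A ^ 2 * K1 := mul_nonneg hA20 hK10
  have n2 : 0 ≤ B ^ 2 * K2 := mul_nonneg hB20 hK20
  have n3 : 0 ≤ (1 - B ^ 2) * O2 := mul_nonneg hB2 hO20
  have n4 : 0 ≤ B ^ 2 * O2 := mul_nonneg hB20 hO20
  have n5 : 0 ≤ (1 - m) * (A ^ 2 * K1) := mul_nonneg (by linarith) n1
  have n6 : 0 ≤ (1 - m) * (B ^ 2 * K2) := mul_nonneg (by linarith) n2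
  have n7 : 0 ≤ m * (B ^ 2 * O2) := mul_nonneg hm0 n4
  have n8 : 0 ≤ (1 - m) * (B ^ 2 * O2) := mul_nonneg (by linarith) n4
  have n9 : 0 ≤ m * (A ^ 2 * K1) := mul_nonneg hm0 n1
  have n10 : 0 ≤ m * (B ^ 2 * K2) := mul_nonneg hm0 n2
  have p1 := thde K ϑ δ m (A ^ 2 * K1)
    (A ^ 2 * K1 + B ^ 2 * (K2 - 2 * O2) + 2 * (H + 2 * O2)) (B ^ 2 * (K2 - 2 * O2)) P Q R
    hϑ hδ hδ1 hδK hm0 hm1 ac1 ac3 (by linarith)
  have p2 := thde K ϑ δ m (-(A ^ 2 * K1))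
    (A ^ 2 * K1 + B ^ 2 * (K2 - 2 * O2) + 2 * (H + 2 * O2)) (-(B ^ 2 * (K2 - 2 * O2))) P Q R
    hϑ hδ hδ1 hδK hm0 hm1 (neg' _ _ ac1) (neg' _ _ ac3) (by linarith)
  have q1 := err e m 1 (-((1 - A ^ 2) * K1))
    ((-((1 - A ^ 2) * K1)) + (-((1 - B ^ 2) * (K2 - 2 * O2)))) (-((1 - B ^ 2) * (K2 - 2 * O2)))
    (-(w * K1)) (-(w * (K1 + (K2 - 2 * O2) + 2 * (H + 2 * O2)))) (-(w * (K2 - 2 * O2)))
    ((1 - A ^ 2) * (e0 - K1)) ((1 - B ^ 2) * (g0 + (2 * O2 + K2 + 2 * H - 4 * (O1 - O2))))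
    (w * K2) (w * (2 * O1 - K1)) P Q R (by norm_num) hm0 hm1 d1 d2 d3 f1 f2 f3 g1 g2 g3 g4
  have q2 := err e m (-1) (-(-((1 - A ^ 2) * K1)))
    ((-((1 - A ^ 2) * K1)) + (-((1 - B ^ 2) * (K2 - 2 * O2)))) (-(-((1 - B ^ 2) * (K2 - 2 * O2))))
    (-(-(w * K1))) (-(w * (K1 + (K2 - 2 * O2) + 2 * (H + 2 * O2)))) (-(-(w * (K2 - 2 * O2))))
    ((1 - A ^ 2) * (e0 - K1)) ((1 - B ^ 2) * (g0 + (2 * O2 + K2 + 2 * H - 4 * (O1 - O2))))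
    (w * K2) (w * (2 * O1 - K1)) P Q R (by norm_num) hm0 hm1 (neg' _ _ d1) d2 (neg' _ _ d3)
    (neg' _ _ f1) f2 (neg' _ _ f3) g1 g2 g3 g4
  have eS : 50 * e * (P ^ 2 + Q ^ 2 + R ^ 2) ≤ δ * ϑ / 2 * (P ^ 2 + Q ^ 2 + R ^ 2) :=
    mul_le_mul_of_nonneg_right (by linarith) (by positivity)
  constructor
  · have key : FpG A B t H (H + K1) (2 * O2) K2 0 K1 (-(t * K2)) e0 (-(t * (2 * O1 - K1)))
        (-(2 * O2 + K2 + 2 * H - 4 * (O1 - O2))) g0 ϑ (2 + 4 * δ) P Q R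
        = ((1 + t) * K1 * (P + Q) ^ 2 + (1 + t) * K2 * (Q + R) ^ 2
            + 2 * (1 - t) * O2 * (Q - R) ^ 2
            + 2 * H * (Q ^ 2 + R ^ 2 + t * Q * (P + R))
            + (O1 - O2) * ((4 - 2 * t) * Q ^ 2 - 4 * R ^ 2 - 2 * t * P * Q + 2 * t * P * R
              + 2 * t * Q * R))
          + (2 * ϑ * ((P + m * Q) ^ 2 + (R + m * Q) ^ 2 + 2 * (1 - m ^ 2) * Q ^ 2)
              + 16 * δ * ϑ * Q ^ 2 + 4 * δ * Q * ((A ^ 2 * K1) * P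
              + (A ^ 2 * K1 + B ^ 2 * (K2 - 2 * O2) + 2 * (H + 2 * O2)) * Q
              + (B ^ 2 * (K2 - 2 * O2)) * R))
          + (((-((1 - A ^ 2) * K1)) * P
              + ((-((1 - A ^ 2) * K1)) + (-((1 - B ^ 2) * (K2 - 2 * O2)))) * Q
              + (-((1 - B ^ 2) * (K2 - 2 * O2))) * R) * (m * P + 2 * Q + m * R)
            + ((-(w * K1)) * P + (-(w * (K1 + (K2 - 2 * O2) + 2 * (H + 2 * O2)))) * Q
              + (-(w * (K2 - 2 * O2))) * R) * (P + R)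
            + ((1 - A ^ 2) * (e0 - K1)) * (P ^ 2 - Q ^ 2)
            + ((1 - B ^ 2) * (g0 + (2 * O2 + K2 + 2 * H - 4 * (O1 - O2)))) * (Q ^ 2 - R ^ 2)
            + (w * K2) * (1 * (P * R) + P * Q - 1 * Q ^ 2 - Q * R)
            + (w * (2 * O1 - K1)) * (1 * Q ^ 2 + P * Q - 1 * (P * R) - Q * R)) := by
      simp only [FpG, hm, hw]; ring
    rw [key]; exact comb _ _ _ _ _ i1 p1 q1 eS
  · have key : FmG A B t H (H + K1) (2 * O2) K2 0 K1 (-(t * K2)) e0 (-(t * (2 * O1 - K1)))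
        (-(2 * O2 + K2 + 2 * H - 4 * (O1 - O2))) g0 ϑ (2 + 4 * δ) P Q R
        = ((1 - t) * K1 * (P - Q) ^ 2 + (1 - t) * K2 * (Q - R) ^ 2
            + 2 * (1 + t) * O2 * (Q + R) ^ 2
            + 2 * H * (Q ^ 2 + R ^ 2 + t * Q * (P + R))
            + (O1 - O2) * ((4 + 2 * t) * Q ^ 2 - 4 * R ^ 2 - 2 * t * P * Q - 2 * t * P * R
              + 2 * t * Q * R))
          + (2 * ϑ * ((P + m * Q) ^ 2 + (R + m * Q) ^ 2 + 2 * (1 - m ^ 2) * Q ^ 2)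
              + 16 * δ * ϑ * Q ^ 2 + 4 * δ * Q * ((-(A ^ 2 * K1)) * P
              + (A ^ 2 * K1 + B ^ 2 * (K2 - 2 * O2) + 2 * (H + 2 * O2)) * Q
              + (-(B ^ 2 * (K2 - 2 * O2))) * R))
          + (((-(-((1 - A ^ 2) * K1))) * P
              + ((-((1 - A ^ 2) * K1)) + (-((1 - B ^ 2) * (K2 - 2 * O2)))) * Q
              + (-(-((1 - B ^ 2) * (K2 - 2 * O2)))) * R) * (m * P + 2 * Q + m * R)
            + ((-(-(w * K1))) * P + (-(w * (K1 + (K2 - 2 * O2) + 2 * (H + 2 * O2)))) * Q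
              + (-(-(w * (K2 - 2 * O2)))) * R) * (P + R)
            + ((1 - A ^ 2) * (e0 - K1)) * (P ^ 2 - Q ^ 2)
            + ((1 - B ^ 2) * (g0 + (2 * O2 + K2 + 2 * H - 4 * (O1 - O2)))) * (Q ^ 2 - R ^ 2)
            + (w * K2) * ((-1) * (P * R) + P * Q - (-1) * Q ^ 2 - Q * R)
            + (w * (2 * O1 - K1)) * ((-1) * Q ^ 2 + P * Q - (-1) * (P * R) - Q * R)) := by
      simp only [FmG, hm, hw]; ring
    rw [key]; exact comb _ _ _ _ _ i2 p2 q2 eS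

end Pool.Agent.W334.IX.Alg2
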